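import Mathlib

/-!
# Wide Aronszajn trees and the slalom number
-/

namespace Pool.Agent.H44Wide

open Cardinal Ordinal Set Order

universe u

/-- A tree: a partial order with a least element in which the strict predecessors of every node
are well ordered. -/
def IsTree (T : Type u) [PartialOrder T] : Prop :=
  (∃ r : T, ∀ t, r ≤ t) ∧ ∀ t : T, IsWellOrder (Iio t) (· < ·)

open Classical in
/-- The height of a node of a tree: the order type of its set of strict predecessors. -/
noncomputable def nodeHeight {T : Type u} [PartialOrder T] (t : T) : Ordinal.{u} :=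
  if h : IsWellOrder (Iio t) (· < ·) then @Ordinal.type (Iio t) (· < ·) h else 0

/-- The height of a tree: the least ordinal which is not the height of a node. -/
noncomputable def treeHeight (T : Type u) [PartialOrder T] : Ordinal.{u} :=
  sInf {α | ∀ t : T, nodeHeight t ≠ α}

/-- `T` has a branch (linearly ordered subset) of order type `κ`. -/
def HasBranch (κ : Cardinal.{u}) (T : Type u) [PartialOrder T] : Prop :=
  ∃ b : κ.ord.ToType → T, StrictMono b

/-- Wide `κ`-Aronszajn trees. -/
structure WideAronszajn (κ : Cardinal.{u}) (T : Type u) [PartialOrder T] : Prop where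
  tree : IsTree T
  card : #T = κ
  height : treeHeight T = κ.ord
  noBranch : ¬ HasBranch κ T

/-- A wide `κ`-Aronszajn tree which receives a strictly increasing (not necessarily injective)
map from every wide `κ`-Aronszajn tree.  Every maximal wide `κ`-Aronszajn tree is one. -/
def WeaklyMaximal (κ : Cardinal.{u}) (T : Type u) [PartialOrder T] : Prop :=
  WideAronszajn κ T ∧ ∀ (S : Type u) [PartialOrder S], WideAronszajn κ S →
    ∃ f : S → T, ∀ s s' : S, s < s' → f s < f s'

/-- The least cardinality of a family `E` of functions from `κ` to the power set of `κ` such that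
every `F : κ → κ` is covered by a function `G : κ → [κ]^{<lam}` each of whose proper initial
segments is an initial segment of a member of `E`. -/
noncomputable def slalomNumber (κ lam : Cardinal.{u}) : Cardinal.{u} :=
  sInf {ν | ∃ (I : Type u) (E : I → κ.ord.ToType → Set κ.ord.ToType), #I = ν ∧
    ∀ F : κ.ord.ToType → κ.ord.ToType, ∃ G : κ.ord.ToType → Set κ.ord.ToType,
      (∀ x, F x ∈ G x ∧ #(G x) < lam) ∧ ∀ a, ∃ i, ∀ x < a, G x = E i x}

end Pool.Agent.H44Wide
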