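import Mathlib

/-!
# Threads of thin inverse systems over a successor cardinal
-/

namespace Pool.Agent.H44Wide

open Cardinal Ordinal Set Order

universe u

theorem exists_bound {κ : Cardinal.{u}} (hκ : κ.IsRegular) {ι : Type u} (hι : #ι < κ)
    (f : ι → κ.ord.ToType) : ∃ b, ∀ i, f i < b := by
  by_contra h
  push Not at h
  have hc : IsCofinal (range f) := fun a => by
    obtain ⟨i, hi⟩ := h a
    exact ⟨f i, mem_range_self i, hi⟩
  have h1 : Order.cof κ.ord.ToType ≤ #(range f) := Order.cof_le hc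
  rw [Ordinal.cof_toType, hκ.cof_ord] at h1
  exact absurd (h1.trans mk_range_le) (not_le.mpr hι)

theorem card_Iio_lt {κ : Cardinal.{u}} (i : κ.ord.ToType) : #(Iio i) < κ := by
  simpa using mk_Iio_lt i

/-- Every inverse system of nonempty sets of size `< lam` indexed by `K` has a thread. -/
def Threads (K : Type u) [LinearOrder K] (lam : Cardinal.{u}) : Prop :=
  ∀ (A : K → Type u) (m : ∀ i j : K, i < j → A j → A i),
    (∀ i j k (hij : i < j) (hjk : j < k) (x : A k),
      m i j hij (m j k hjk x) = m i k (hij.trans hjk) x) →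
    (∀ i, Nonempty (A i)) → (∀ i, #(A i) < lam) →
    ∃ x : ∀ i, A i, ∀ i j (h : i < j), m i j h (x j) = x i

section Kurepa

variable {μ : Cardinal.{u}} {A : (succ μ).ord.ToType → Type u}
  (m : ∀ i j : (succ μ).ord.ToType, i < j → A j → A i)

def Alive (i : (succ μ).ord.ToType) (x : A i) : Prop :=
  ∀ j (h : i < j), ∃ y : A j, m i j h y = x

variable (hμ : ℵ₀ ≤ μ)
  (hm : ∀ i j k (hij : i < j) (hjk : j < k) (x : A k),
      m i j hij (m j k hjk x) = m i k (hij.trans hjk) x)
  (hne : ∀ i, Nonempty (A i)) (hcard : ∀ i, #(A i) < μ)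

include hm in
theorem Alive.restrict {i j : (succ μ).ord.ToType} (h : i < j) {y : A j} (hy : Alive m j y) :
    Alive m i (m i j h y) := by
  intro l hl
  rcases lt_trichotomy l j with h1 | h1 | h1
  · exact ⟨m l j h1 y, hm _ _ _ _ _ _⟩
  · subst h1
    exact ⟨y, rfl⟩
  · obtain ⟨z, hz⟩ := hy l h1
    refine ⟨z, ?_⟩
    rw [← hz, hm]

include hμ hm hcard in
theorem Alive.extend {i j : (succ μ).ord.ToType} (h : i < j) {x : A i} (hx : Alive m i x) :
    ∃ y : A j, Alive m j y ∧ m i j h y = x := by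
  classical
  by_contra hcon
  push Not at hcon
  have hreg : (succ μ).IsRegular := isRegular_succ hμ
  -- bound for the dead nodes
  have key : ∀ y : A j, ∃ γ : (succ μ).ord.ToType, ∀ hγ : ¬ Alive m j y,
      ∃ hj : j < γ, ∀ z : A γ, m j γ hj z ≠ y := by
    intro y
    by_cases hy : Alive m j y
    · exact ⟨j, fun h => absurd hy h⟩
    · have hy' := hy
      unfold Alive at hy'
      push Not at hy'
      obtain ⟨γ, hγ, hz⟩ := hy'
      exact ⟨γ, fun _ => ⟨hγ, hz⟩⟩
  choose γ hγ using key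
  obtain ⟨b, hb⟩ := exists_bound hreg ((hcard j).trans (lt_succ μ)) γ
  obtain ⟨b', hb'⟩ := exists_bound hreg (ι := ULift.{u} Bool)
    (lt_of_lt_of_le (by simp) hreg.aleph0_le)
    (fun t => if t.down then b else j)
  have hbb : b < b' := by simpa using hb' ⟨true⟩
  have hjb : j < b' := by simpa using hb' ⟨false⟩
  obtain ⟨w, hw⟩ := hx b' (h.trans hjb)
  have hy0 : m i j h (m j b' hjb w) = x := by rw [hm, hw]
  have hdead : ¬ Alive m j (m j b' hjb w) := fun ha => hcon _ ha hy0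
  obtain ⟨hj, hz⟩ := hγ _ hdead
  have hlt : γ (m j b' hjb w) < b' := (hb _).trans hbb
  exact hz (m _ b' hlt w) (hm _ _ _ _ _ _)

include hμ hm hne hcard in
theorem exists_alive (i : (succ μ).ord.ToType) : ∃ x : A i, Alive m i x := by
  classical
  by_contra hcon
  push Not at hcon
  have hreg : (succ μ).IsRegular := isRegular_succ hμ
  have key : ∀ y : A i, ∃ γ : (succ μ).ord.ToType, ∃ hj : i < γ, ∀ z : A γ, m i γ hj z ≠ y := by
    intro y
    have hy' := hcon y
    unfold Alive at hy'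
    push Not at hy'
    exact hy'
  choose γ hj hγ using key
  obtain ⟨b, hb⟩ := exists_bound hreg ((hcard i).trans (lt_succ μ)) γ
  obtain ⟨w⟩ := hne b
  have hib : i < b := by
    obtain ⟨y0⟩ := hne i
    exact (hj y0).trans (hb y0)
  exact hγ (m i b hib w) (m _ b (hb _) w) (hm _ _ _ _ _ _)

include hμ in
theorem exists_gt2 (a b : (succ μ).ord.ToType) : ∃ c, a < c ∧ b < c := by
  have hreg : (succ μ).IsRegular := isRegular_succ hμ
  obtain ⟨c, hc⟩ := exists_bound hreg (ι := ULift.{u} Bool)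
    (lt_of_lt_of_le (by simp) hreg.aleph0_le)
    (fun t => if t.down then a else b)
  exact ⟨c, by simpa using hc ⟨true⟩, by simpa using hc ⟨false⟩⟩

include hμ hm hcard in
theorem split (hno : ¬ ∃ x : ∀ i, A i, ∀ i j (h : i < j), m i j h (x j) = x i)
    (i : (succ μ).ord.ToType) (x : A i) (hx : Alive m i x) :
    ∃ j, ∃ h : i < j, ∃ y y' : A j, Alive m j y ∧ Alive m j y' ∧ y ≠ y' ∧
      m i j h y = x ∧ m i j h y' = x := by
  classical
  by_contra hcon
  push Not at hcon
  have huniq : ∀ j (h : i < j) (y y' : A j), Alive m j y → Alive m j y' →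
      m i j h y = x → m i j h y' = x → y = y' := by
    intro j h y y' hy hy' h1 h2
    by_contra hne
    exact hcon j h y y' hy hy' hne h1 h2
  have hex : ∀ j, ∃ y : A j, ∀ h : i < j, Alive m j y ∧ m i j h y = x := by
    intro j
    by_cases h : i < j
    · obtain ⟨y, hy⟩ := hx.extend m hμ hm hcard h
      exact ⟨y, fun _ => hy⟩
    · rcases not_lt.mp h |>.eq_or_lt with h1 | h1
      · subst h1
        exact ⟨x, fun h' => absurd h' h⟩
      · exact ⟨m j i h1 x, fun h' => absurd h' h⟩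
  choose u hu using hex
  choose J hJi hJ using fun k => exists_gt2 hμ i k
  have hind : ∀ k j j' (hj : i < j) (hj' : i < j') (hk : k < j) (hk' : k < j'), j < j' →
      m k j hk (u j) = m k j' hk' (u j') := by
    intro k j j' hj hj' hk hk' hjj
    have h1 : u j = m j j' hjj (u j') := by
      apply huniq j hj _ _ (hu j hj).1 ((hu j' hj').1.restrict m hm hjj) (hu j hj).2
      rw [hm]
      exact (hu j' hj').2
    rw [h1, hm]
  apply hno
  refine ⟨fun k => m k (J k) (hJ k) (u (J k)), ?_⟩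
  intro k k' hk
  simp only
  rw [hm]
  rcases lt_trichotomy (J k) (J k') with h | h | h
  · exact (hind k (J k) (J k') (hJi k) (hJi k') (hJ k) (hk.trans (hJ k')) h).symm
  · have : ∀ l (hl : J k = l) (h1 : k < l), m k l h1 (u l) = m k (J k) (hJ k) (u (J k)) := by
      intro l hl h1
      subst hl
      rfl
    exact this _ h _
  · exact hind k (J k') (J k) (hJi k') (hJi k) (hk.trans (hJ k')) (hJ k) h

include hμ hm hcard in
theorem split_all (hno : ¬ ∃ x : ∀ i, A i, ∀ i j (h : i < j), m i j h (x j) = x i)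
    (i : (succ μ).ord.ToType) :
    ∃ g, ∃ h : i < g, ∀ x : A i, Alive m i x → ∃ y y' : A g, Alive m g y ∧ Alive m g y' ∧
      y ≠ y' ∧ m i g h y = x ∧ m i g h y' = x := by
  classical
  have hreg : (succ μ).IsRegular := isRegular_succ hμ
  have key : ∀ x : A i, ∃ j, Alive m i x → ∃ h : i < j, ∃ y y' : A j, Alive m j y ∧
      Alive m j y' ∧ y ≠ y' ∧ m i j h y = x ∧ m i j h y' = x := by
    intro x
    by_cases hx : Alive m i x
    · obtain ⟨j, h⟩ := split m hμ hm hcard hno i x hx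
      exact ⟨j, fun _ => h⟩
    · exact ⟨i, fun h => absurd h hx⟩
  choose j hj using key
  obtain ⟨b, hb⟩ := exists_bound hreg ((hcard i).trans (lt_succ μ)) j
  obtain ⟨g, hig, hbg⟩ := exists_gt2 hμ i b
  refine ⟨g, hig, fun x hx => ?_⟩
  obtain ⟨h1, y, y', hy, hy', hne, e1, e2⟩ := hj x hx
  have hjg : j x < g := (hb x).trans hbg
  obtain ⟨z, hz, ez⟩ := hy.extend m hμ hm hcard hjg
  obtain ⟨z', hz', ez'⟩ := hy'.extend m hμ hm hcard hjg
  refine ⟨z, z', hz, hz', ?_, ?_, ?_⟩
  · rintro rfl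
    exact hne (ez.symm.trans ez')
  · rw [← e1, ← ez, hm]
  · rw [← e2, ← ez', hm]

end Kurepa

theorem exists_sequence {κ : Cardinal.{u}} (hκ : κ.IsRegular) (M : Type u) [LinearOrder M]
    [WellFoundedLT M] (hM : ∀ ξ : M, #(Iio ξ) < κ) (i0 : κ.ord.ToType)
    (g : κ.ord.ToType → κ.ord.ToType) :
    ∃ α : M → κ.ord.ToType, (∀ ξ, i0 < α ξ) ∧ ∀ ξ η, η < ξ → g (α η) < α ξ := by
  classical
  have hex : ∀ (ξ : M) (r : Iio ξ → κ.ord.ToType), ∃ b, i0 < b ∧ ∀ η, g (r η) < b := by
    intro ξ r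
    obtain ⟨b, hb⟩ := exists_bound hκ (hM ξ) (fun η => g (r η))
    obtain ⟨c, hc⟩ := exists_bound hκ (ι := ULift.{u} Bool)
      (lt_of_lt_of_le (by simp) hκ.aleph0_le)
      (fun t => if t.down then b else i0)
    have h1 : b < c := by simpa using hc ⟨true⟩
    have h2 : i0 < c := by simpa using hc ⟨false⟩
    exact ⟨c, h2, fun η => (hb η).trans h1⟩
  choose st hst1 hst2 using hex
  let α : M → κ.ord.ToType :=
    (wellFounded_lt (α := M)).fix (fun ξ r => st ξ (fun η => r η.1 η.2))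
  have e : ∀ ξ, α ξ = st ξ (fun η => α η.1) := fun ξ => WellFounded.fix_eq _ _ _
  refine ⟨α, fun ξ => ?_, fun ξ η h => ?_⟩
  · rw [e]
    exact hst1 _ _
  · rw [e ξ]
    exact hst2 ξ (fun η => α η.1) ⟨η, h⟩

/-- Kurepa: inverse systems of nonempty sets of size `< μ` over `μ⁺` have threads. -/
theorem threads_succ {μ : Cardinal.{u}} (hμ : ℵ₀ ≤ μ) : Threads (succ μ).ord.ToType μ := by
  classical
  intro A m hm hne hcard
  by_contra hno
  have hreg : (succ μ).IsRegular := isRegular_succ hμ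
  choose g hg hsplit using split_all m hμ hm hcard hno
  have hM : #(μ.ord.ToType) < succ μ := by simp
  obtain ⟨i0, _⟩ := exists_bound hreg (ι := PEmpty.{u + 1})
    (lt_of_lt_of_le (by simp [aleph0_pos]) hreg.aleph0_le) (fun t => t.elim)
  obtain ⟨α, _, hα⟩ := exists_sequence hreg μ.ord.ToType
    (fun ξ => lt_of_le_of_lt (mk_set_le _) hM) i0 g
  obtain ⟨b, hb⟩ := exists_bound hreg hM (fun ξ => g (α ξ))
  obtain ⟨x, hx⟩ := exists_alive m hμ hm hne hcard b
  have hab : ∀ ξ, α ξ < b := fun ξ => (hg _).trans (hb ξ)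
  have key : ∀ ξ, ∃ z : A b, m (g (α ξ)) b (hb ξ) z ≠ m (g (α ξ)) b (hb ξ) x ∧
      m (α ξ) b (hab ξ) z = m (α ξ) b (hab ξ) x := by
    intro ξ
    have hx1 : Alive m (α ξ) (m (α ξ) b (hab ξ) x) := hx.restrict m hm (hab ξ)
    obtain ⟨y, y', hy, hy', hne', e1, e2⟩ := hsplit (α ξ) _ hx1
    have : ∃ w : A (g (α ξ)), Alive m _ w ∧ w ≠ m (g (α ξ)) b (hb ξ) x ∧
        m (α ξ) (g (α ξ)) (hg _) w = m (α ξ) b (hab ξ) x := by
      by_cases h : y = m (g (α ξ)) b (hb ξ) x
      · exact ⟨y', hy', fun h' => hne' (h.trans h'.symm), e2⟩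
      · exact ⟨y, hy, h, e1⟩
    obtain ⟨w, hw, hwne, ew⟩ := this
    obtain ⟨z, _, ez⟩ := hw.extend m hμ hm hcard (hb ξ)
    refine ⟨z, ?_, ?_⟩
    · rw [ez]
      exact hwne
    · rw [← ew, ← ez, hm]
  choose z hz1 hz2 using key
  have hlt : ∀ ξ η, ξ < η → z ξ ≠ z η := by
    intro ξ η h heq
    have h1 : g (α ξ) < α η := hα η ξ h
    apply hz1 ξ
    have e1 : m (g (α ξ)) b (hb ξ) (z η) = m (g (α ξ)) (α η) h1 (m (α η) b (hab η) (z η)) := by
      rw [hm]
    rw [heq, e1, hz2 η, hm]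
  have hinj : Function.Injective z := by
    intro ξ η h
    rcases lt_trichotomy ξ η with h1 | h1 | h1
    · exact absurd h (hlt _ _ h1)
    · exact h1
    · exact absurd h.symm (hlt _ _ h1)
  have := mk_le_of_injective hinj
  rw [mk_toType, card_ord] at this
  exact absurd this (not_le.mpr (hcard b))

end Pool.Agent.H44Wide
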