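import Pool.Agent.H44Wide.Trees

/-!
# The slalom number
-/

namespace Pool.Agent.H44Wide

open Cardinal Ordinal Set Order

universe u

theorem toType_nonempty {κ : Cardinal.{u}} (hκ : ℵ₀ ≤ κ) : Nonempty κ.ord.ToType := by
  rw [← mk_ne_zero_iff, mk_toType, card_ord]
  exact (aleph0_pos.trans_le hκ).ne'

/-- The exact functions: a family of size at most `2 ^ μ`. -/
theorem exists_exact {μ : Cardinal.{u}} (hμ : ℵ₀ ≤ μ) (lam : Cardinal.{u}) (hl : 1 < lam) :
    ∃ (I : Type u) (E : I → (succ μ).ord.ToType → Set (succ μ).ord.ToType), #I ≤ 2 ^ μ ∧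
      ∀ F : (succ μ).ord.ToType → (succ μ).ord.ToType,
        ∃ G : (succ μ).ord.ToType → Set (succ μ).ord.ToType,
          (∀ x, F x ∈ G x ∧ #(G x) < lam) ∧ ∀ a, ∃ i, ∀ x < a, G x = E i x := by
  classical
  refine ⟨Σ a : (succ μ).ord.ToType, (Iio a → (succ μ).ord.ToType),
    fun i x => if h : x < i.1 then {i.2 ⟨x, h⟩} else ∅, ?_, ?_⟩
  · rw [mk_sigma]
    have hK : #(succ μ).ord.ToType = succ μ := by rw [mk_toType, card_ord]
    have hs : succ μ ≤ 2 ^ μ := succ_le_of_lt (cantor μ)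
    have h2 : ℵ₀ ≤ (2 : Cardinal.{u}) ^ μ := hμ.trans (cantor μ).le
    have h1 : ∀ a : (succ μ).ord.ToType, #(Iio a → (succ μ).ord.ToType) ≤ 2 ^ μ := by
      intro a
      rw [← power_def, hK]
      have ha : #(Iio a) ≤ μ := lt_succ_iff.mp (card_Iio_lt a)
      calc (succ μ) ^ #(Iio a) ≤ (2 ^ μ) ^ #(Iio a) := power_le_power_right hs
        _ ≤ (2 ^ μ) ^ μ := power_le_power_left (aleph0_pos.trans_le h2).ne' ha
        _ = 2 ^ μ := by rw [← power_mul, mul_eq_self hμ]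
    refine (sum_le_sum _ (fun _ => (2 : Cardinal.{u}) ^ μ) h1).trans ?_
    rw [sum_const, Cardinal.lift_id, Cardinal.lift_id, hK]
    exact (mul_le_mul' hs le_rfl).trans (mul_eq_self h2).le
  · intro F
    refine ⟨fun x => {F x}, fun x => ⟨rfl, ?_⟩, fun a => ⟨⟨a, fun x => F x.1⟩, fun x hx => ?_⟩⟩
    · rw [mk_singleton]
      exact hl
    · simp only [dif_pos hx]

theorem slalomNumber_le {μ : Cardinal.{u}} (hμ : ℵ₀ ≤ μ) (lam : Cardinal.{u}) (hl : 1 < lam) :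
    slalomNumber (succ μ) lam ≤ 2 ^ μ := by
  obtain ⟨I, E, hI, h⟩ := exists_exact hμ lam hl
  have hmem : #I ∈ {ν | ∃ (I : Type u) (E : I → (succ μ).ord.ToType → Set (succ μ).ord.ToType),
      #I = ν ∧ ∀ F : (succ μ).ord.ToType → (succ μ).ord.ToType,
        ∃ G : (succ μ).ord.ToType → Set (succ μ).ord.ToType,
          (∀ x, F x ∈ G x ∧ #(G x) < lam) ∧ ∀ a, ∃ i, ∀ x < a, G x = E i x} := ⟨I, E, rfl, h⟩
  exact (csInf_le' hmem).trans hI

theorem covering_of_le {μ : Cardinal.{u}} (hμ : ℵ₀ ≤ μ) (lam : Cardinal.{u}) (hl : 1 < lam)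
    (h : slalomNumber (succ μ) lam ≤ succ μ) : Covering (succ μ) lam := by
  classical
  have hne : {ν | ∃ (I : Type u) (E : I → (succ μ).ord.ToType → Set (succ μ).ord.ToType),
      #I = ν ∧ ∀ F : (succ μ).ord.ToType → (succ μ).ord.ToType,
        ∃ G : (succ μ).ord.ToType → Set (succ μ).ord.ToType,
          (∀ x, F x ∈ G x ∧ #(G x) < lam) ∧ ∀ a, ∃ i, ∀ x < a, G x = E i x}.Nonempty := by
    obtain ⟨I, E, _, h⟩ := exists_exact hμ lam hl
    exact ⟨_, I, E, rfl, h⟩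
  obtain ⟨I, E, hI, hE⟩ := csInf_mem hne
  have hI' : #I ≤ succ μ := by
    rw [hI]
    exact h
  obtain ⟨k0⟩ := toType_nonempty (κ := succ μ) (hμ.trans (le_succ μ))
  obtain ⟨G0, _, hG0⟩ := hE id
  obtain ⟨i0, _⟩ := hG0 k0
  have : Nonempty I := ⟨i0⟩
  have hK : #I ≤ #(succ μ).ord.ToType := by rwa [mk_toType, card_ord]
  obtain ⟨g⟩ := Cardinal.le_def _ _ |>.mp hK
  refine ⟨fun b => E (Function.invFun g b), fun F => ?_⟩
  obtain ⟨G, hG, hGE⟩ := hE F
  refine ⟨G, hG, fun a => ?_⟩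
  obtain ⟨i, hi⟩ := hGE a
  refine ⟨g i, fun x hx => ?_⟩
  have hgi : Function.invFun g (g i) = i := Function.leftInverse_invFun g.injective i
  change G x = E (Function.invFun g (g i)) x
  rw [hgi]
  exact hi x hx

theorem lt_slalomNumber {μ : Cardinal.{u}} (hμ : ℵ₀ ≤ μ) (lam : Cardinal.{u}) (hl : 1 < lam)
    (hthr : Threads (succ μ).ord.ToType lam)
    (T : Type u) [PartialOrder T] (hT : WeaklyMaximal (succ μ) T) :
    succ μ < slalomNumber (succ μ) lam := by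
  by_contra h
  have hcov := covering_of_le hμ lam hl (not_lt.mp h)
  obtain ⟨S, hS, hS1, hS2⟩ := exists_wide_not_le (isRegular_succ hμ) hthr hcov T hT.1
  exact hS2 (hT.2 S hS1)

end Pool.Agent.H44Wide
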