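import Pool.Agent.H44Wide.Kurepa

/-!
# The tree of self-applied slaloms
-/

namespace Pool.Agent.H44Wide

open Cardinal Ordinal Set Order

universe u

section Chains

variable {κ lam : Cardinal.{u}} {T : Type u} [PartialOrder T]

/-- `x ∈ R i` lies above a `T`-chain running through all `R k`, `k < i`. -/
def Good (R : κ.ord.ToType → Set T) (i : κ.ord.ToType) (x : T) : Prop :=
  x ∈ R i ∧ ∃ t : κ.ord.ToType → T, (∀ k < i, t k ∈ R k ∧ t k < x) ∧
    ∀ k k', k < k' → k' < i → t k < t k'

theorem exists_least (hT : ∀ t : T, IsWellOrder (Iio t) (· < ·)) (x : T) (S : Set T)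
    (hS : S.Nonempty) (hx : ∀ y ∈ S, y < x) : ∃ y ∈ S, ∀ z ∈ S, y ≤ z := by
  have := hT x
  obtain ⟨y0, hy0⟩ := hS
  let S' : Set (Iio x) := {y | y.1 ∈ S}
  have hS' : S'.Nonempty := ⟨⟨y0, hx _ hy0⟩, hy0⟩
  have hwf : WellFounded (fun a b : Iio x => a < b) := (hT x).wf
  refine ⟨(hwf.min S' hS').1, hwf.min_mem S' hS', fun z hz => ?_⟩
  have h1 := hwf.not_lt_min S' (x := ⟨z, hx z hz⟩) hz
  rcases trichotomous_of (· < ·) (hwf.min S' hS') (⟨z, hx z hz⟩ : Iio x) with h | h | h
  · exact le_of_lt h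
  · exact le_of_eq (congrArg Subtype.val h)
  · exact absurd h h1

theorem branch_of_chains (hκ : κ.IsRegular) (hT : ∀ t : T, IsWellOrder (Iio t) (· < ·))
    (hthr : Threads κ.ord.ToType lam) (R : κ.ord.ToType → Set T) (hR : ∀ i, #(R i) < lam)
    (hch : ∀ α, ∃ t : κ.ord.ToType → T, (∀ i < α, t i ∈ R i) ∧
      ∀ i i', i < i' → i' < α → t i < t i') :
    ∃ b : κ.ord.ToType → T, StrictMono b := by
  classical
  have hgood : ∀ {i x}, Good R i x → ∀ k, k < i → ∃ y, Good R k y ∧ y < x := by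
    intro i x hx k hk
    obtain ⟨_, t, ht, ht'⟩ := hx
    refine ⟨t k, ⟨(ht k hk).1, t, fun l hl => ⟨(ht l (hl.trans hk)).1, ht' l k hl hk⟩, ?_⟩,
      (ht k hk).2⟩
    intro l l' h1 h2
    exact ht' l l' h1 (h2.trans hk)
  have hmin : ∀ {i x}, Good R i x → ∀ k, k < i → ∃ y, (Good R k y ∧ y < x) ∧
      ∀ z, Good R k z → z < x → y ≤ z := by
    intro i x hx k hk
    obtain ⟨y, hy, hy'⟩ := exists_least hT x {y | Good R k y ∧ y < x} (hgood hx k hk)
      (fun y hy => hy.2)
    exact ⟨y, hy, fun z h1 h2 => hy' z ⟨h1, h2⟩⟩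
  let A : κ.ord.ToType → Type u := fun i => {x : T // Good R i x}
  let m : ∀ i j : κ.ord.ToType, i < j → A j → A i := fun i j h x =>
    ⟨Classical.choose (hmin x.2 i h), (Classical.choose_spec (hmin x.2 i h)).1.1⟩
  have hm1 : ∀ i j (h : i < j) (x : A j), (m i j h x).1 < x.1 := fun i j h x =>
    (Classical.choose_spec (hmin x.2 i h)).1.2
  have hm2 : ∀ i j (h : i < j) (x : A j) z, Good R i z → z < x.1 → (m i j h x).1 ≤ z :=
    fun i j h x => (Classical.choose_spec (hmin x.2 i h)).2
  have hlt : ∀ i j k (hij : i < j) (hjk : j < k) (x : A k),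
      (m i k (hij.trans hjk) x).1 < (m j k hjk x).1 := by
    intro i j k hij hjk x
    obtain ⟨y, hy, hy'⟩ := hgood (m j k hjk x).2 i hij
    exact lt_of_le_of_lt (hm2 i k (hij.trans hjk) x y hy (hy'.trans (hm1 j k hjk x))) hy'
  have hm : ∀ i j k (hij : i < j) (hjk : j < k) (x : A k),
      m i j hij (m j k hjk x) = m i k (hij.trans hjk) x := by
    intro i j k hij hjk x
    apply Subtype.ext
    apply le_antisymm
    · exact hm2 i j hij (m j k hjk x) _ (m i k (hij.trans hjk) x).2 (hlt i j k hij hjk x)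
    · exact hm2 i k (hij.trans hjk) x _ (m i j hij (m j k hjk x)).2
        ((hm1 i j hij (m j k hjk x)).trans (hm1 j k hjk x))
  have hne : ∀ i, Nonempty (A i) := by
    intro i
    obtain ⟨c, hc⟩ := exists_bound hκ (ι := PUnit.{u + 1})
      (lt_of_lt_of_le (by simp) hκ.aleph0_le) (fun _ => i)
    obtain ⟨t, ht, ht'⟩ := hch c
    have hic := hc ⟨⟩
    exact ⟨⟨t i, ht i hic, t, fun k hk => ⟨ht k (hk.trans hic), ht' k i hk hic⟩,
      fun k k' h1 h2 => ht' k k' h1 (h2.trans hic)⟩⟩
  have hcard : ∀ i, #(A i) < lam := by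
    intro i
    refine lt_of_le_of_lt ?_ (hR i)
    exact mk_le_of_injective (f := fun x : A i => (⟨x.1, x.2.1⟩ : R i))
      (fun x y h => Subtype.ext (congrArg (fun z : R i => z.1) h))
  obtain ⟨x, hx⟩ := hthr A m hm hne hcard
  refine ⟨fun i => (x i).1, fun i j h => ?_⟩
  have := hm1 i j h (x j)
  rw [hx i j h] at this
  exact this

end Chains

section STree

variable {κ : Cardinal.{u}} (lam : Cardinal.{u})
  (E : κ.ord.ToType → κ.ord.ToType → Set κ.ord.ToType)
  {T : Type u} [PartialOrder T] (j : T → κ.ord.ToType)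
  (π : κ.ord.ToType × κ.ord.ToType → κ.ord.ToType)

/-- The least code whose slalom agrees with that of `b` below `a`. -/
noncomputable def rho (a b : κ.ord.ToType) : κ.ord.ToType :=
  (wellFounded_lt (α := κ.ord.ToType)).min {b' | ∀ x < a, E b' x = E b x} ⟨b, fun _ _ => rfl⟩

theorem rho_spec (a b : κ.ord.ToType) : ∀ x < a, E (rho E a b) x = E b x :=
  (wellFounded_lt (α := κ.ord.ToType)).min_mem {b' | ∀ x < a, E b' x = E b x}
    ⟨b, fun _ _ => rfl⟩

theorem rho_congr {a b b' : κ.ord.ToType} (h : ∀ x < a, E b x = E b' x) :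
    rho E a b = rho E a b' := by
  have : {c | ∀ x < a, E c x = E b x} = {c | ∀ x < a, E c x = E b' x} := by
    ext c
    constructor
    · intro hc x hx
      rw [hc x hx, h x hx]
    · intro hc x hx
      rw [hc x hx, h x hx]
  unfold rho
  simp only [this]

theorem rho_rho {a i b : κ.ord.ToType} (h : i ≤ a) : rho E i (rho E a b) = rho E i b :=
  rho_congr E fun x hx => rho_spec E a b x (lt_of_lt_of_le hx h)

/-- Nodes of the tree of self-applied slaloms. -/
def IsNode (a b : κ.ord.ToType) : Prop :=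
  rho E a b = b ∧ (∀ x < a, #(E b x) < lam) ∧ ∃ t : κ.ord.ToType → T,
    (∀ i < a, π (i, rho E i b) < a → j (t i) ∈ E b (π (i, rho E i b))) ∧
    ∀ i i', i < i' → i' < a → π (i, rho E i b) < a → π (i', rho E i' b) < a → t i < t i'

/-- The tree of self-applied slaloms. -/
structure STree where
  a : κ.ord.ToType
  b : κ.ord.ToType
  node : IsNode lam E j π a b

variable {lam E j π}

theorem STree.ext' {p q : STree lam E j π} (h1 : p.a = q.a) (h2 : p.b = q.b) : p = q := by
  cases p
  cases q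
  simp only at h1 h2
  subst h1 h2
  rfl

instance : PartialOrder (STree lam E j π) where
  le p q := p.a ≤ q.a ∧ ∀ x < p.a, E p.b x = E q.b x
  le_refl p := ⟨le_refl _, fun _ _ => rfl⟩
  le_trans p q r h1 h2 := ⟨h1.1.trans h2.1, fun x hx =>
    (h1.2 x hx).trans (h2.2 x (lt_of_lt_of_le hx h1.1))⟩
  le_antisymm p q h1 h2 := by
    have ha : p.a = q.a := le_antisymm h1.1 h2.1
    refine STree.ext' ha ?_
    have := rho_congr E h1.2
    rw [p.node.1] at this
    rw [this, ha, q.node.1]

theorem STree.le_def {p q : STree lam E j π} :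
    p ≤ q ↔ p.a ≤ q.a ∧ ∀ x < p.a, E p.b x = E q.b x := Iff.rfl

theorem STree.lt_iff {p q : STree lam E j π} :
    p < q ↔ p.a < q.a ∧ ∀ x < p.a, E p.b x = E q.b x := by
  constructor
  · intro h
    have hle := h.le
    refine ⟨lt_of_le_of_ne hle.1 fun ha => ?_, hle.2⟩
    apply h.not_ge
    exact ⟨ha.ge, fun x hx => (hle.2 x (by rw [ha]; exact hx)).symm⟩
  · intro h
    refine lt_of_le_not_ge ⟨h.1.le, h.2⟩ fun h' => ?_
    exact absurd h'.1 (not_le.mpr h.1)

theorem STree.strictMono_a : StrictMono (fun p : STree lam E j π => p.a) :=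
  fun _ _ h => (STree.lt_iff.mp h).1

instance : WellFoundedLT (STree lam E j π) := STree.strictMono_a.wellFoundedLT

theorem STree.total_below {p p' q : STree lam E j π} (h : p ≤ q) (h' : p' ≤ q) :
    p ≤ p' ∨ p' ≤ p := by
  rcases le_total p.a p'.a with h1 | h1
  · left
    exact ⟨h1, fun x hx => (h.2 x hx).trans (h'.2 x (lt_of_lt_of_le hx h1)).symm⟩
  · right
    exact ⟨h1, fun x hx => (h'.2 x hx).trans (h.2 x (lt_of_lt_of_le hx h1)).symm⟩

theorem STree.card_le (hκ : ℵ₀ ≤ κ) : #(STree lam E j π) ≤ κ := by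
  have hinj : Function.Injective (fun p : STree lam E j π => (p.a, p.b)) := fun p q h =>
    STree.ext' (congrArg Prod.fst h) (congrArg Prod.snd h)
  refine (mk_le_of_injective hinj).trans ?_
  rw [mk_prod, Cardinal.lift_id, mk_toType, card_ord, mul_eq_self hκ]

/-- No strictly increasing map of the slalom tree to `T`, if all functions are covered. -/
theorem STree.no_map [Nonempty T] (hπ : Function.Injective π)
    (hcov : ∀ F : κ.ord.ToType → κ.ord.ToType, ∃ G : κ.ord.ToType → Set κ.ord.ToType,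
      (∀ x, F x ∈ G x ∧ #(G x) < lam) ∧ ∀ a, ∃ b, ∀ x < a, G x = E b x)
    (hbr : ¬ ∃ b : κ.ord.ToType → T, StrictMono b) :
    ¬ ∃ f : STree lam E j π → T, StrictMono f := by
  classical
  rintro ⟨f, hf⟩
  let F : κ.ord.ToType → κ.ord.ToType := fun x =>
    if h : ∃ s : STree lam E j π, π (s.a, s.b) = x then j (f (Classical.choose h)) else x
  have hF : ∀ s : STree lam E j π, F (π (s.a, s.b)) = j (f s) := by
    intro s
    have h : ∃ s' : STree lam E j π, π (s'.a, s'.b) = π (s.a, s.b) := ⟨s, rfl⟩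
    have e : Classical.choose h = s := by
      have := hπ (Classical.choose_spec h)
      exact STree.ext' (congrArg Prod.fst this) (congrArg Prod.snd this)
    simp only [F, dif_pos h, e]
  obtain ⟨G, hG, hGE⟩ := hcov F
  choose b0 hb0 using hGE
  let β : κ.ord.ToType → κ.ord.ToType := fun a => rho E a (b0 a)
  have hβ : ∀ a, ∀ x < a, E (β a) x = G x := fun a x hx => by
    rw [rho_spec E a (b0 a) x hx, hb0 a x hx]
  have hρ : ∀ i a, i ≤ a → rho E i (β a) = β i := by
    intro i a hi
    rw [rho_rho E hi]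
    exact rho_congr E fun x hx => by
      rw [← hb0 a x (lt_of_lt_of_le hx hi), ← hb0 i x hx]
  have hnode : ∀ a, IsNode lam E j π a (β a) := by
    intro a
    induction a using WellFoundedLT.induction with
    | ind a ih =>
      let s : ∀ i, i < a → STree lam E j π := fun i hi => ⟨i, β i, ih i hi⟩
      obtain ⟨t0⟩ : Nonempty (κ.ord.ToType → T) := inferInstance
      refine ⟨hρ a a le_rfl, fun x hx => by rw [hβ a x hx]; exact (hG x).2,
        fun i => if hi : i < a then f (s i hi) else t0 i, ?_, ?_⟩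
      · intro i hi hlt
        rw [hρ i a hi.le] at hlt ⊢
        rw [hβ a _ hlt]
        simp only [dif_pos hi]
        have := (hG (π (i, β i))).1
        rwa [hF (s i hi)] at this
      · intro i i' hii hi' _ _
        simp only [dif_pos hi', dif_pos (hii.trans hi')]
        apply hf
        rw [STree.lt_iff]
        exact ⟨hii, fun x hx => by
          change E (β i) x = E (β i') x
          rw [hβ i x hx, hβ i' x (hx.trans hii)]⟩
  apply hbr
  refine ⟨fun a => f ⟨a, β a, hnode a⟩, fun a a' h => hf ?_⟩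
  rw [STree.lt_iff]
  exact ⟨h, fun x hx => by
    change E (β a) x = E (β a') x
    rw [hβ a x hx, hβ a' x (hx.trans h)]⟩

/-- The slalom tree has no branch of length `κ`. -/
theorem STree.no_branch (hκ : κ.IsRegular) (hT : ∀ t : T, IsWellOrder (Iio t) (· < ·))
    (hj : Function.Injective j) (hthr : Threads κ.ord.ToType lam)
    (hbr : ¬ ∃ b : κ.ord.ToType → T, StrictMono b) :
    ¬ ∃ φ : κ.ord.ToType → STree lam E j π, StrictMono φ := by
  classical
  rintro ⟨φ, hφ⟩
  have hmono : StrictMono (fun i => (φ i).a) := STree.strictMono_a.comp hφ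
  have hge : ∀ i, i ≤ (φ i).a := fun i => hmono.le_apply
  have hgt : ∀ x : κ.ord.ToType, ∃ i, x < i := fun x => by
    obtain ⟨c, hc⟩ := exists_bound hκ (ι := PUnit.{u + 1})
      (lt_of_lt_of_le (by simp) hκ.aleph0_le) (fun _ => x)
    exact ⟨c, hc ⟨⟩⟩
  choose up hup using hgt
  -- the code of the union below `a`
  have hup' : ∀ x, x < (φ (up x)).a := fun x => lt_of_lt_of_le (hup x) (hge _)
  let G : κ.ord.ToType → Set κ.ord.ToType := fun x => E (φ (up x)).b x
  have hG : ∀ i x, x < (φ i).a → E (φ i).b x = G x := by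
    intro i x hx
    rcases lt_trichotomy i (up x) with h | h | h
    · exact (STree.lt_iff.mp (hφ h)).2 x hx
    · rw [h]
    · exact ((STree.lt_iff.mp (hφ h)).2 x (hup' x)).symm
  let β : κ.ord.ToType → κ.ord.ToType := fun a => rho E a (φ (up a)).b
  have hρ : ∀ i l, i ≤ (φ l).a → rho E i (φ l).b = β i := by
    intro i l hi
    apply rho_congr
    intro x hx
    rw [hG l x (lt_of_lt_of_le hx hi), hG (up i) x (hx.trans (hup' i))]
  apply hbr
  refine branch_of_chains hκ hT hthr (fun i => {t | j t ∈ G (π (i, β i))}) ?_ ?_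
  · intro i
    have h1 : #(G (π (i, β i))) < lam :=
      (φ (up (π (i, β i)))).node.2.1 _ (hup' _)
    refine lt_of_le_of_lt ?_ h1
    exact mk_le_of_injective (f := fun t : {t | j t ∈ G (π (i, β i))} =>
      (⟨j t.1, t.2⟩ : G (π (i, β i)))) (fun t t' h =>
        Subtype.ext (hj (congrArg (fun z : G (π (i, β i)) => z.1) h)))
  · intro α
    have hc : #(Iio α) < κ := card_Iio_lt α
    obtain ⟨c, hc'⟩ := exists_bound hκ hc (fun i : Iio α => π (i.1, β i.1))
    obtain ⟨d, hd⟩ := exists_bound hκ (ι := ULift.{u} Bool)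
      (lt_of_lt_of_le (by simp) hκ.aleph0_le) (fun t => if t.down then α else c)
    have hαd : α < d := by simpa using hd ⟨true⟩
    have hcd : c < d := by simpa using hd ⟨false⟩
    obtain ⟨t, ht, ht'⟩ := (φ d).node.2.2
    have hlt : ∀ i < α, i < (φ d).a := fun i hi => (hi.trans hαd).trans_le (hge d)
    have hπ : ∀ i < α, π (i, rho E i (φ d).b) < (φ d).a := by
      intro i hi
      rw [hρ i d (hlt i hi).le]
      exact ((hc' ⟨i, hi⟩).trans hcd).trans_le (hge d)
    refine ⟨t, fun i hi => ?_, fun i i' h1 h2 => ?_⟩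
    · have h1 := ht i (hlt i hi) (hπ i hi)
      have h2 := hπ i hi
      rw [hρ i d (hlt i hi).le] at h1 h2
      rw [hG d _ h2] at h1
      exact h1
    · exact ht' i i' h1 (hlt i' h2) (hπ i (h1.trans h2)) (hπ i' h2)

end STree

end Pool.Agent.H44Wide
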