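import Pool.Agent.H44Wide.Defs

/-!
# Aronszajn trees and the tree property
-/

namespace Pool.Agent.H44Wide

open Cardinal Ordinal Set Order

universe u

/-- (Narrow) `κ`-Aronszajn trees: trees of height `κ` all of whose levels have size `< κ`, without a
branch of order type `κ`. -/
structure NarrowAronszajn (κ : Cardinal.{u}) (S : Type u) [PartialOrder S] : Prop where
  tree : IsTree S
  height : treeHeight S = κ.ord
  levels : ∀ α : Ordinal.{u}, #{s : S | nodeHeight s = α} < κ
  noBranch : ¬ HasBranch κ S

/-- The tree property at `κ`: every tree of height `κ` all of whose levels have size `< κ` has a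
branch of order type `κ`. -/
def TreeProperty (κ : Cardinal.{u}) : Prop :=
  ∀ (S : Type u) [PartialOrder S], IsTree S → treeHeight S = κ.ord →
    (∀ α : Ordinal.{u}, #{s : S | nodeHeight s = α} < κ) → HasBranch κ S

end Pool.Agent.H44Wide
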