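import Pool.Agent.H44Wide.Trees
import Pool.Agent.H44Wide.TPDefs

/-!
# The tree property gives threads of inverse systems
-/

namespace Pool.Agent.H44Wide

open Cardinal Ordinal Set Order

universe u

theorem nodeHeight_eq_typein {T : Type u} [PartialOrder T]
    (hT : ∀ t : T, IsWellOrder (Iio t) (· < ·)) (t : T) (s : Iio t) :
    nodeHeight s.1 = @Ordinal.typein (Iio t) (· < ·) (hT t) s := by
  have h1 := hT t
  have h2 := hT s.1
  rw [nodeHeight_eq s.1 h2, ← Ordinal.type_subrel, Ordinal.type_eq]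
  refine ⟨⟨⟨fun y => ⟨⟨y.1, lt_trans y.2 s.2⟩, y.2⟩, fun y => ⟨y.1.1, y.2⟩, fun y => rfl,
    fun y => rfl⟩, ?_⟩⟩
  intro a b
  exact Iff.rfl

theorem nodeHeight_lt {T : Type u} [PartialOrder T]
    (hT : ∀ t : T, IsWellOrder (Iio t) (· < ·)) {s t : T} (h : s < t) :
    nodeHeight s < nodeHeight t := by
  have h1 := hT t
  rw [nodeHeight_eq_typein hT t ⟨s, h⟩, nodeHeight_eq t h1]
  exact Ordinal.typein_lt_type _ _

section Sys

variable {K : Type u} [LinearOrder K] (A : K → Type u) (m : ∀ i j : K, i < j → A j → A i)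

/-- The tree of an inverse system. -/
structure Sys where
  i : K
  x : A i

variable {A m}

/-- Order of the tree of an inverse system. -/
@[reducible] def sysOrder (hm : ∀ i j k (hij : i < j) (hjk : j < k) (x : A k),
      m i j hij (m j k hjk x) = m i k (hij.trans hjk) x) : PartialOrder (Sys A) where
  le p q := p = q ∨ ∃ h : p.i < q.i, m p.i q.i h q.x = p.x
  le_refl p := Or.inl rfl
  le_trans p q r := by
    rintro (rfl | ⟨h1, e1⟩) (rfl | ⟨h2, e2⟩)
    · exact Or.inl rfl
    · exact Or.inr ⟨h2, e2⟩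
    · exact Or.inr ⟨h1, e1⟩
    · refine Or.inr ⟨h1.trans h2, ?_⟩
      rw [← hm _ _ _ h1 h2, e2, e1]
  le_antisymm p q := by
    rintro (rfl | ⟨h1, e1⟩) (h2 | ⟨h2, e2⟩)
    · rfl
    · rfl
    · exact h2.symm
    · exact absurd h1 (not_lt.mpr h2.le)

end Sys

theorem threads_of_treeProperty {κ : Cardinal.{u}} (hκ : κ.IsRegular) (hTP : TreeProperty κ) :
    Threads κ.ord.ToType κ := by
  classical
  intro A m hm hne hcard
  by_contra hno
  let P : PartialOrder (Sys A) := sysOrder hm
  have hlt : ∀ p q : Sys A, p < q ↔ ∃ h : p.i < q.i, m p.i q.i h q.x = p.x := by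
    intro p q
    constructor
    · intro h
      rcases h.le with h1 | h1
      · exact absurd h1 h.ne
      · exact h1
    · rintro ⟨h1, e1⟩
      refine lt_of_le_of_ne (Or.inr ⟨h1, e1⟩) ?_
      rintro rfl
      exact lt_irrefl _ h1
  have hmono : StrictMono (fun p : Sys A => p.i) := fun p q h => ((hlt p q).mp h).1
  have hwf : WellFoundedLT (Sys A) := hmono.wellFoundedLT
  have htot : ∀ p p' q : Sys A, p < q → p' < q → p ≤ p' ∨ p' ≤ p := by
    intro p p' q h h'
    obtain ⟨h1, e1⟩ := (hlt _ _).mp h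
    obtain ⟨h2, e2⟩ := (hlt _ _).mp h'
    rcases lt_trichotomy p.i p'.i with h3 | h3 | h3
    · left
      refine Or.inr ⟨h3, ?_⟩
      rw [← e1, ← e2, hm]
    · left
      refine Or.inl ?_
      cases p with
      | mk i x =>
        cases p' with
        | mk i' x' =>
          simp only at h3
          subst h3
          simp only at e1 e2
          rw [← e1, ← e2]
    · right
      refine Or.inr ⟨h3, ?_⟩
      rw [← e1, ← e2, hm]
  have htree : IsTree (WithBot (Sys A)) := isTree_withBot htot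
  -- branches give threads
  have hnb : ¬ HasBranch κ (WithBot (Sys A)) := by
    intro h
    obtain ⟨b, hb⟩ := h.of_withBot hκ
    have hbm : StrictMono (fun l => (b l).i) := hmono.comp hb
    have hge : ∀ l, l ≤ (b l).i := fun l => hbm.le_apply
    have hgt : ∀ x : κ.ord.ToType, ∃ i, x < i := fun x => by
      obtain ⟨c, hc⟩ := exists_bound hκ (ι := PUnit.{u + 1})
        (lt_of_lt_of_le (by simp) hκ.aleph0_le) (fun _ => x)
      exact ⟨c, hc ⟨⟩⟩
    choose up hup using hgt
    have hup' : ∀ k, k < (b (up k)).i := fun k => lt_of_lt_of_le (hup k) (hge _)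
    have hind : ∀ k l l' (hk : k < (b l).i) (hk' : k < (b l').i), l < l' →
        m k (b l).i hk (b l).x = m k (b l').i hk' (b l').x := by
      intro k l l' hk hk' hl
      obtain ⟨h1, e1⟩ := (hlt _ _).mp (hb hl)
      rw [← e1, hm]
    apply hno
    refine ⟨fun k => m k (b (up k)).i (hup' k) (b (up k)).x, fun k k' hkk => ?_⟩
    simp only
    rw [hm]
    rcases lt_trichotomy (up k) (up k') with h | h | h
    · exact (hind k _ _ (hup' k) (hkk.trans (hup' k')) h).symm
    · have : ∀ l (_ : up k = l) (h1 : k < (b l).i), m k (b l).i h1 (b l).x =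
          m k (b (up k)).i (hup' k) (b (up k)).x := by
        intro l hl h1
        subst hl
        rfl
      exact this _ h _
    · exact hind k _ _ (hkk.trans (hup' k')) (hup' k) h
  -- heights
  have hcmp : ∀ (i i' : κ.ord.ToType) (x : A i) (x' : A i'), i < i' →
      nodeHeight ((⟨i, x⟩ : Sys A) : WithBot (Sys A)) <
        nodeHeight ((⟨i', x'⟩ : Sys A) : WithBot (Sys A)) := by
    intro i i' x x' h
    let p : Sys A := ⟨i, m i i' h x'⟩
    have hp : ((p : Sys A) : WithBot (Sys A)) < ((⟨i', x'⟩ : Sys A) : WithBot (Sys A)) :=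
      WithBot.coe_lt_coe.mpr ((hlt _ _).mpr ⟨h, rfl⟩)
    refine lt_of_le_of_lt ?_ (nodeHeight_lt htree.2 hp)
    -- map of predecessors
    have hpred : ∀ z : WithBot (Sys A), z < ((⟨i, x⟩ : Sys A) : WithBot (Sys A)) →
        z = ⊥ ∨ ∃ (k : κ.ord.ToType) (hk : k < i), z = ((⟨k, m k i hk x⟩ : Sys A) :
          WithBot (Sys A)) := by
      intro z hz
      induction z using WithBot.recBotCoe with
      | bot => exact Or.inl rfl
      | coe q =>
        right
        obtain ⟨h1, e1⟩ := (hlt _ _).mp (WithBot.coe_lt_coe.mp hz)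
        refine ⟨q.i, h1, ?_⟩
        simp only at e1
        rw [e1]
    let g : WithBot (Sys A) → WithBot (Sys A) := fun z =>
      WithBot.recBotCoe ⊥ (fun q => if hk : q.i < i then
        ((⟨q.i, m q.i i hk p.x⟩ : Sys A) : WithBot (Sys A)) else ⊥) z
    have hg : ∀ z : WithBot (Sys A), g z < ((p : Sys A) : WithBot (Sys A)) := by
      intro z
      induction z using WithBot.recBotCoe with
      | bot => exact WithBot.bot_lt_coe _
      | coe q =>
        change (if hk : q.i < i then ((⟨q.i, m q.i i hk p.x⟩ : Sys A) : WithBot (Sys A)) else ⊥) < _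
        split_ifs with hk
        · exact WithBot.coe_lt_coe.mpr ((hlt _ _).mpr ⟨hk, rfl⟩)
        · exact WithBot.bot_lt_coe _
    refine nodeHeight_le htree.2 htree.2 _ _ (fun z => ⟨g z.1, hg z.1⟩) ?_
    intro a b hab
    have hab' : a.1 < b.1 := hab
    change g a.1 < g b.1
    rcases hpred b.1 b.2 with hb | ⟨k', hk', hb⟩
    · rw [hb] at hab'
      exact absurd hab' not_lt_bot
    · rcases hpred a.1 a.2 with ha | ⟨k, hk, ha⟩
      · rw [ha, hb]
        change ⊥ < (if hk : k' < i then _ else ⊥)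
        rw [dif_pos hk']
        exact WithBot.bot_lt_coe _
      · rw [ha, hb] at hab' ⊢
        obtain ⟨h1, e1⟩ := (hlt _ _).mp (WithBot.coe_lt_coe.mp hab')
        simp only at h1
        change (if hk : k < i then _ else ⊥) < (if hk : k' < i then _ else ⊥)
        rw [dif_pos hk, dif_pos hk']
        exact WithBot.coe_lt_coe.mpr ((hlt _ _).mpr ⟨h1, hm _ _ _ _ _ _⟩)
  have hKwo : ∀ t : κ.ord.ToType, IsWellOrder (Iio t) (· < ·) :=
    isWellOrder_Iio (fun p p' q _ _ => le_total p p')
  have hheight : treeHeight (WithBot (Sys A)) = κ.ord := by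
    apply treeHeight_eq htree.2 κ _ hnb
    intro α hα
    have hα' : α < @Ordinal.type κ.ord.ToType (· < ·) _ := by rwa [Ordinal.type_toType]
    obtain ⟨i, hi⟩ := Ordinal.typein_surj (fun a b : κ.ord.ToType => a < b) hα'
    obtain ⟨x⟩ := hne i
    refine ⟨((⟨i, x⟩ : Sys A) : WithBot (Sys A)), ?_⟩
    have h1 : nodeHeight i = α := by
      rw [nodeHeight_eq i (hKwo i), ← hi, ← Ordinal.type_subrel, Ordinal.type_eq]
      exact ⟨⟨Equiv.refl _, Iff.rfl⟩⟩
    rw [← h1]
    refine nodeHeight_le hKwo htree.2 i _ (fun k => ⟨((⟨k.1, m k.1 i k.2 x⟩ : Sys A) :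
      WithBot (Sys A)), WithBot.coe_lt_coe.mpr ((hlt _ _).mpr ⟨k.2, rfl⟩)⟩) ?_
    intro a b hab
    exact WithBot.coe_lt_coe.mpr ((hlt _ _).mpr ⟨hab, hm _ _ _ _ _ _⟩)
  refine hnb (hTP (WithBot (Sys A)) htree hheight fun α => ?_)
  by_cases hex : ∃ p : Sys A, nodeHeight ((p : Sys A) : WithBot (Sys A)) = α
  · obtain ⟨⟨i0, x0⟩, hp⟩ := hex
    let g : Option (A i0) → WithBot (Sys A) := fun o => o.elim ⊥ (fun y =>
      ((⟨i0, y⟩ : Sys A) : WithBot (Sys A)))
    have hsub : {s : WithBot (Sys A) | nodeHeight s = α} ⊆ range g := by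
      intro s hs
      induction s using WithBot.recBotCoe with
      | bot => exact ⟨none, rfl⟩
      | coe q =>
        cases q with
        | mk i x =>
          have hs' : nodeHeight ((⟨i, x⟩ : Sys A) : WithBot (Sys A)) = α := hs
          rcases lt_trichotomy i i0 with h | h | h
          · have := hcmp i i0 x x0 h
            rw [hs', hp] at this
            exact absurd this (lt_irrefl _)
          · subst h
            exact ⟨some x, rfl⟩
          · have := hcmp i0 i x0 x h
            rw [hs', hp] at this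
            exact absurd this (lt_irrefl _)
    refine lt_of_le_of_lt ((mk_le_mk_of_subset hsub).trans mk_range_le) ?_
    rw [mk_option]
    exact add_lt_of_lt hκ.aleph0_le (hcard i0) (lt_of_lt_of_le one_lt_aleph0 hκ.aleph0_le)
  · have hsub : {s : WithBot (Sys A) | nodeHeight s = α} ⊆ {⊥} := by
      intro s hs
      induction s using WithBot.recBotCoe with
      | bot => rfl
      | coe q => exact absurd ⟨q, hs⟩ hex
    refine lt_of_le_of_lt (mk_le_mk_of_subset hsub) ?_
    rw [mk_singleton]
    exact lt_of_lt_of_le one_lt_aleph0 hκ.aleph0_le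

end Pool.Agent.H44Wide
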