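import Pool.Agent.H44Wide.Defs
import Pool.Agent.H44Wide.Slalom

/-!
# Heights of nodes, the final tree, the tree property gives threads
-/

namespace Pool.Agent.H44Wide

open Cardinal Ordinal Set Order

universe u

section Height

variable {T : Type u} [PartialOrder T]

theorem nodeHeight_eq (t : T) (h : IsWellOrder (Iio t) (· < ·)) :
    nodeHeight t = @Ordinal.type (Iio t) (· < ·) h := by
  unfold nodeHeight
  rw [dif_pos h]

theorem nodeHeight_le {X : Type u} [PartialOrder X] (hX : ∀ t : X, IsWellOrder (Iio t) (· < ·))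
    (hT : ∀ t : T, IsWellOrder (Iio t) (· < ·)) (x : X) (t : T) (f : Iio x → Iio t)
    (hf : ∀ a b, a < b → f a < f b) : nodeHeight x ≤ nodeHeight t := by
  have h1 := hX x
  have h2 := hT t
  rw [nodeHeight_eq x h1, nodeHeight_eq t h2]
  rw [Ordinal.type_le_iff']
  exact ⟨RelEmbedding.ofMonotone f hf⟩

theorem exists_of_lt_nodeHeight (hT : ∀ t : T, IsWellOrder (Iio t) (· < ·)) (t : T)
    (α : Ordinal.{u}) (hα : α < nodeHeight t) : ∃ s < t, nodeHeight s = α := by
  have h1 := hT t
  rw [nodeHeight_eq t h1] at hα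
  obtain ⟨s, hs⟩ := Ordinal.typein_surj (fun a b : Iio t => a < b) hα
  refine ⟨s.1, s.2, ?_⟩
  rw [nodeHeight_eq s.1 (hT s.1), ← hs]
  have := hT s.1
  rw [← Ordinal.type_subrel]
  rw [Ordinal.type_eq]
  refine ⟨⟨⟨fun y => ⟨⟨y.1, lt_trans y.2 s.2⟩, y.2⟩, fun y => ⟨y.1.1, y.2⟩, fun y => rfl,
    fun y => rfl⟩, ?_⟩⟩
  intro a b
  exact Iff.rfl

theorem treeHeight_eq (hT : ∀ t : T, IsWellOrder (Iio t) (· < ·)) (κ : Cardinal.{u})
    (h1 : ∀ α < κ.ord, ∃ t : T, α ≤ nodeHeight t) (h2 : ¬ HasBranch κ T) :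
    treeHeight T = κ.ord := by
  have hno : ∀ t : T, nodeHeight t ≠ κ.ord := by
    intro t ht
    apply h2
    have h3 := hT t
    rw [nodeHeight_eq t h3, ← Ordinal.type_toType κ.ord] at ht
    obtain ⟨e⟩ := Ordinal.type_eq.mp ht
    refine ⟨fun i => (e.symm i).1, fun i k h => ?_⟩
    exact (e.symm.map_rel_iff (a := i) (b := k)).mpr h
  have hmem : κ.ord ∈ {α : Ordinal.{u} | ∀ t : T, nodeHeight t ≠ α} := hno
  unfold treeHeight
  apply le_antisymm
  · exact csInf_le' hmem
  · apply le_csInf ⟨_, hmem⟩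
    intro α hα
    by_contra hlt
    push Not at hlt
    obtain ⟨t, ht⟩ := h1 α hlt
    rcases ht.eq_or_lt with h | h
    · exact hα t h.symm
    · obtain ⟨s, _, hs⟩ := exists_of_lt_nodeHeight hT t α h
      exact hα s hs

theorem exists_height (κ : Cardinal.{u}) (hh : treeHeight T = κ.ord) (α : Ordinal.{u})
    (hα : α < κ.ord) : ∃ t : T, nodeHeight t = α := by
  by_contra h
  push Not at h
  have : treeHeight T ≤ α := csInf_le' h
  rw [hh] at this
  exact absurd hα (not_lt.mpr this)

end Height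

section WF

theorem wellFoundedLT_of_Iio {T : Type u} [PartialOrder T]
    (hT : ∀ t : T, IsWellOrder (Iio t) (· < ·)) : WellFoundedLT T := by
  refine ⟨⟨fun t => ⟨t, fun y hy => ?_⟩⟩⟩
  have hwf : WellFounded (fun a b : Iio t => a < b) := (hT t).wf
  have key : ∀ z : Iio t, Acc (fun a b : T => a < b) z.1 := by
    intro z
    induction z using hwf.induction with
    | _ z ih =>
      refine ⟨_, fun w hw => ?_⟩
      exact ih ⟨w, lt_trans hw z.2⟩ hw
  exact key ⟨y, hy⟩

theorem isWellOrder_Iio {T : Type u} [PartialOrder T] [WellFoundedLT T]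
    (h : ∀ p p' q : T, p < q → p' < q → p ≤ p' ∨ p' ≤ p) (t : T) :
    IsWellOrder (Iio t) (· < ·) := by
  have hwf : WellFounded (fun a b : Iio t => a < b) :=
    InvImage.wf (fun z : Iio t => z.1) (wellFounded_lt (α := T))
  have : Std.Trichotomous (fun a b : Iio t => a < b) := by
    refine ⟨fun a b hab hba => ?_⟩
    rcases h a.1 b.1 t a.2 b.2 with h1 | h1
    · rcases h1.eq_or_lt with h2 | h2
      · exact Subtype.ext h2
      · exact absurd h2 hab
    · rcases h1.eq_or_lt with h2 | h2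
      · exact Subtype.ext h2.symm
      · exact absurd h2 hba
  exact { wf := hwf, toTrichotomous := this }

theorem total_below {T : Type u} [PartialOrder T] (hT : ∀ t : T, IsWellOrder (Iio t) (· < ·))
    (p p' q : T) (h : p < q) (h' : p' < q) : p ≤ p' ∨ p' ≤ p := by
  have := hT q
  rcases trichotomous_of (· < ·) (⟨p, h⟩ : Iio q) (⟨p', h'⟩ : Iio q) with h1 | h1 | h1
  · exact Or.inl (le_of_lt h1)
  · exact Or.inl (le_of_eq (congrArg Subtype.val h1))
  · exact Or.inr (le_of_lt h1)

end WF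

section Sum

theorem isTree_withBot {X : Type u} [PartialOrder X] [WellFoundedLT X]
    (h : ∀ p p' q : X, p < q → p' < q → p ≤ p' ∨ p' ≤ p) : IsTree (WithBot X) := by
  refine ⟨⟨⊥, fun t => bot_le⟩, ?_⟩
  apply isWellOrder_Iio
  intro p p' q hp hp'
  induction p using WithBot.recBotCoe with
  | bot => exact Or.inl bot_le
  | coe p =>
    induction p' using WithBot.recBotCoe with
    | bot => exact Or.inr bot_le
    | coe p' =>
      induction q using WithBot.recBotCoe with
      | bot => exact absurd hp (not_lt_bot)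
      | coe q =>
        rw [WithBot.coe_lt_coe] at hp hp'
        rw [WithBot.coe_le_coe, WithBot.coe_le_coe]
        exact h p p' q hp hp'

theorem sum_total {X Y : Type u} [PartialOrder X] [PartialOrder Y]
    (hX : ∀ p p' q : X, p < q → p' < q → p ≤ p' ∨ p' ≤ p)
    (hY : ∀ p p' q : Y, p < q → p' < q → p ≤ p' ∨ p' ≤ p)
    (p p' q : X ⊕ Y) (h : p < q) (h' : p' < q) : p ≤ p' ∨ p' ≤ p := by
  rcases p with p | p <;> rcases p' with p' | p' <;> rcases q with q | q
  · rw [Sum.inl_lt_inl_iff] at h h'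
    rw [Sum.inl_le_inl_iff, Sum.inl_le_inl_iff]
    exact hX p p' q h h'
  · exact absurd h Sum.not_inl_lt_inr
  · exact absurd h' Sum.not_inr_lt_inl
  · exact absurd h Sum.not_inl_lt_inr
  · exact absurd h Sum.not_inr_lt_inl
  · exact absurd h' Sum.not_inl_lt_inr
  · exact absurd h Sum.not_inr_lt_inl
  · rw [Sum.inr_lt_inr_iff] at h h'
    rw [Sum.inr_le_inr_iff, Sum.inr_le_inr_iff]
    exact hY p p' q h h'

theorem sum_wf {X Y : Type u} [PartialOrder X] [PartialOrder Y] [WellFoundedLT X]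
    [WellFoundedLT Y] : WellFoundedLT (X ⊕ Y) := by
  have hX : ∀ x : X, Acc (fun a b : X ⊕ Y => a < b) (Sum.inl x) := by
    intro x
    induction x using WellFoundedLT.induction with
    | ind x ih =>
      refine ⟨_, fun y hy => ?_⟩
      rcases y with y | y
      · exact ih y (Sum.inl_lt_inl_iff.mp hy)
      · exact absurd hy Sum.not_inr_lt_inl
  have hY : ∀ x : Y, Acc (fun a b : X ⊕ Y => a < b) (Sum.inr x) := by
    intro x
    induction x using WellFoundedLT.induction with
    | ind x ih =>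
      refine ⟨_, fun y hy => ?_⟩
      rcases y with y | y
      · exact absurd hy Sum.not_inl_lt_inr
      · exact ih y (Sum.inr_lt_inr_iff.mp hy)
  refine ⟨⟨fun z => ?_⟩⟩
  rcases z with x | y
  · exact hX x
  · exact hY y

theorem HasBranch.of_withBot {κ : Cardinal.{u}} (hκ : κ.IsRegular) {X : Type u} [PartialOrder X]
    (h : HasBranch κ (WithBot X)) : HasBranch κ X := by
  obtain ⟨b, hb⟩ := h
  obtain ⟨i0, _⟩ := exists_bound hκ (ι := PEmpty.{u + 1})
    (lt_of_lt_of_le (by simp [aleph0_pos]) hκ.aleph0_le) (fun t => t.elim)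
  obtain ⟨σ, hσ1, hσ2⟩ := exists_sequence hκ κ.ord.ToType card_Iio_lt i0 id
  have hne : ∀ i, b (σ i) ≠ ⊥ := fun i h => by
    have := hb (hσ1 i)
    rw [h] at this
    exact absurd this not_lt_bot
  refine ⟨fun i => (b (σ i)).unbot (hne i), fun i k hik => ?_⟩
  rw [← WithBot.coe_lt_coe, WithBot.coe_unbot, WithBot.coe_unbot]
  exact hb (hσ2 k i hik)

theorem HasBranch.of_sum {κ : Cardinal.{u}} (hκ : κ.IsRegular) {X Y : Type u} [PartialOrder X]
    [PartialOrder Y] (h : HasBranch κ (X ⊕ Y)) : HasBranch κ X ∨ HasBranch κ Y := by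
  classical
  obtain ⟨b, hb⟩ := h
  obtain ⟨i0, _⟩ := exists_bound hκ (ι := PEmpty.{u + 1})
    (lt_of_lt_of_le (by simp [aleph0_pos]) hκ.aleph0_le) (fun t => t.elim)
  have hcomp : ∀ i, b i0 ≤ b i ∨ b i ≤ b i0 := fun i => by
    rcases le_total i0 i with h | h
    · exact Or.inl (hb.monotone h)
    · exact Or.inr (hb.monotone h)
  rcases h0 : b i0 with x0 | y0
  · left
    have hl : ∀ i, ∃ x, b i = Sum.inl x := by
      intro i
      rcases hi : b i with x | y
      · exact ⟨x, rfl⟩
      · exfalso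
        have := hcomp i
        rw [h0, hi] at this
        rcases this with h | h
        · exact Sum.not_inl_le_inr h
        · exact Sum.not_inr_le_inl h
    choose c hc using hl
    refine ⟨c, fun i k hik => ?_⟩
    have := hb hik
    rw [hc, hc, Sum.inl_lt_inl_iff] at this
    exact this
  · right
    have hl : ∀ i, ∃ x, b i = Sum.inr x := by
      intro i
      rcases hi : b i with x | y
      · exfalso
        have := hcomp i
        rw [h0, hi] at this
        rcases this with h | h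
        · exact Sum.not_inr_le_inl h
        · exact Sum.not_inl_le_inr h
      · exact ⟨y, rfl⟩
    choose c hc using hl
    refine ⟨c, fun i k hik => ?_⟩
    have := hb hik
    rw [hc, hc, Sum.inr_lt_inr_iff] at this
    exact this

end Sum

/-- There are `κ` many functions `E b : κ → P(κ)` such that every `F : κ → κ` is covered by a
function `G : κ → [κ]^{<lam}` each of whose proper initial segments is an initial segment of some
`E b`. -/
def Covering (κ lam : Cardinal.{u}) : Prop :=
  ∃ E : κ.ord.ToType → κ.ord.ToType → Set κ.ord.ToType,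
    ∀ F : κ.ord.ToType → κ.ord.ToType, ∃ G : κ.ord.ToType → Set κ.ord.ToType,
      (∀ x, F x ∈ G x ∧ #(G x) < lam) ∧ ∀ a, ∃ b, ∀ x < a, G x = E b x

/-- The main construction. -/
theorem exists_wide_not_le {κ lam : Cardinal.{u}} (hκ : κ.IsRegular)
    (hthr : Threads κ.ord.ToType lam) (hcov : Covering κ lam)
    (T : Type u) [PartialOrder T] (hT : WideAronszajn κ T) :
    ∃ (S : Type u) (_ : PartialOrder S), WideAronszajn κ S ∧
      ¬ ∃ f : S → T, ∀ s s' : S, s < s' → f s < f s' := by
  classical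
  obtain ⟨E, hE⟩ := hcov
  have hT2 := hT.tree.2
  obtain ⟨r, hr⟩ := hT.tree.1
  have : Nonempty T := ⟨r⟩
  have hcardT : #T = #κ.ord.ToType := by rw [hT.card, mk_toType, card_ord]
  obtain ⟨jj⟩ := Cardinal.eq.mp hcardT
  have hKK : #(κ.ord.ToType × κ.ord.ToType) = #κ.ord.ToType := by
    rw [mk_prod, Cardinal.lift_id, mk_toType, card_ord, mul_eq_self hκ.aleph0_le]
  obtain ⟨pp⟩ := Cardinal.eq.mp hKK
  let ST := STree lam E (jj : T → κ.ord.ToType) (pp : _ → κ.ord.ToType)
  have hwT : WellFoundedLT T := wellFoundedLT_of_Iio hT2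
  have hwS : WellFoundedLT (ST ⊕ T) := sum_wf
  have hS : ∀ p p' q : ST ⊕ T, p < q → p' < q → p ≤ p' ∨ p' ≤ p :=
    sum_total (fun p p' q h h' => STree.total_below h.le h'.le) (total_below hT2)
  have htree : IsTree (WithBot (ST ⊕ T)) := isTree_withBot hS
  have hnb : ¬ HasBranch κ (WithBot (ST ⊕ T)) := by
    intro h
    rcases (h.of_withBot hκ).of_sum hκ with h1 | h1
    · exact STree.no_branch hκ hT2 jj.injective hthr hT.noBranch h1
    · exact hT.noBranch h1
  refine ⟨WithBot (ST ⊕ T), inferInstance, ⟨htree, ?_, ?_, hnb⟩, ?_⟩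
  · apply le_antisymm
    · have h1 : #(WithBot (ST ⊕ T)) = #ST + #T + 1 := by
        rw [show #(WithBot (ST ⊕ T)) = #(Option (ST ⊕ T)) from rfl, mk_option, mk_sum,
          Cardinal.lift_id, Cardinal.lift_id]
      rw [h1]
      have h2 : #ST ≤ κ := STree.card_le hκ.aleph0_le
      refine add_le_of_le hκ.aleph0_le (add_le_of_le hκ.aleph0_le h2 hT.card.le) ?_
      exact one_le_aleph0.trans hκ.aleph0_le
    · rw [← hT.card]
      exact mk_le_of_injective (f := fun t : T => ((Sum.inr t : ST ⊕ T) : WithBot (ST ⊕ T)))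
        (fun a b h => Sum.inr_injective (WithBot.coe_injective h))
  · apply treeHeight_eq htree.2 κ _ hnb
    intro α hα
    obtain ⟨t, ht⟩ := exists_height κ hT.height α hα
    refine ⟨((Sum.inr t : ST ⊕ T) : WithBot (ST ⊕ T)), ?_⟩
    rw [← ht]
    refine nodeHeight_le hT2 htree.2 t _ (fun y => ⟨((Sum.inr y.1 : ST ⊕ T) :
      WithBot (ST ⊕ T)), ?_⟩) ?_
    · have := y.2
      exact WithBot.coe_lt_coe.mpr (Sum.inr_lt_inr_iff.mpr this)
    · intro a b hab
      exact WithBot.coe_lt_coe.mpr (Sum.inr_lt_inr_iff.mpr hab)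
  · rintro ⟨f, hf⟩
    refine STree.no_map (lam := lam) (E := E) (j := (jj : T → κ.ord.ToType))
      (π := (pp : _ → κ.ord.ToType)) pp.injective hE hT.noBranch
      ⟨fun s => f ((Sum.inl s : ST ⊕ T) : WithBot (ST ⊕ T)), ?_⟩
    intro s s' h
    exact hf _ _ (WithBot.coe_lt_coe.mpr (Sum.inl_lt_inl_iff.mpr h))

end Pool.Agent.H44Wide
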